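import Pool.Agent.W5h77.MB.Cyc

/-!
# Arithmetic of the fields of `p ^ N`-th roots of unity: statements
-/

set_option autoImplicit false

namespace Pool.Agent.J6H71.MuS

open IntermediateField Module Pool.Agent.Q60.MU Pool.Agent.W5h77.MB NumberField
open scoped Pointwise

/-- The field generated by the `p ^ N`-th roots of unity. -/
noncomputable def cyc (p N : ℕ) : IntermediateField ℚ Qb := adjoin ℚ {z : Qb | z ^ p ^ N = 1}

/-- MU1. `ℚ(ζ)`, `ζ` of order `p ^ N`, has only one prime above `p`.

Proof. Let `L = cyc p N`. It is a cyclotomic extension of `ℚ` (`IsCyclotomicExtension {p ^ N} ℚ L`). If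
`N = 0` then `L = ⊥` and `Pool.Agent.W5h33.DF.onePrime_bot` (file `Pool/Agent/W5h33/DF/Field.lean`,
lemma `rat_mem_iff`) applies. Otherwise let `ζ` be a primitive root and `π = ζ - 1`; in `𝓞 L`, `π` is a
prime element (`IsPrimitiveRoot.zeta_sub_one_prime`), and `p = unit * π ^ φ(p ^ N)`
(`IsPrimitiveRoot.toInteger_isPrimitiveRoot`, norm of `ζ - 1`, or: `p` is the product of the `1 - ζ ^ i`, all
of them associated to `π`; see `Mathlib/NumberTheory/NumberField/Cyclotomic/Basic.lean` and `Ideal.lean`). If `A` is a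
valuation ring of `L` in which `p` is not a unit, then `A` contains `𝓞 L` (integrally closed), `π` is in the
maximal ideal of `A`, and `𝔪_A ∩ 𝓞 L` is a prime ideal which contains `π`, hence is `(π)` (it is maximal). So
elements of `𝓞 L` not divisible by `π` are units of `A`. For `x = a / b`, `a, b ∈ 𝓞 L` nonzero, `a = π ^ i a'`,
`b = π ^ j b'` with `a', b'` not divisible by `π` (`WfDvdMonoid`/`multiplicity` finite),
`x ∈ A` iff `j ≤ i`. This does not depend on `A`. (Alternatively: `A` contains the localisation of `𝓞 L` at the prime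
`𝔪_A ∩ 𝓞 L = (π)`, which is a discrete valuation ring, and equality holds since a discrete valuation ring
is a maximal proper subring.) -/
def OnePrimeT : Prop := ∀ (p : ℕ), p.Prime → ∀ N : ℕ, OnePrime p (cyc p N)

/-- MU2. The inertia groups at the primes above `p` surject onto `Gal(ℚ(ζ)/ℚ)`. You may use `OnePrimeT`
(and then `Pool.Agent.W5h77.MB.conj_of_one`).

Proof. Let `L = cyc p N`. By `conj_of_one` there is `g ∈ Gal(Qb/L)` with `x • A = g • A`. So
`w₀ = g⁻¹ x` stabilises `A`. It acts trivially on `𝓞_L` modulo the maximal ideal of `A`: `𝓞_L = ℤ[ζ]`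
(`IsCyclotomicExtension.Rat.isIntegralClosure_adjoin_singleton_of_prime_pow`), and
`w₀ ζ ^ i - ζ ^ i = ζ ^ j - ζ ^ i` lies in the maximal ideal of `A` (as `ζ ^ i - 1` does: a root of unity `u` of
`p`-power order satisfies `(u - 1) ^ p ^ N ∈ (p)`). Let
`B` be the ring of all algebraic integers in `Qb`, `𝔔 = 𝔪_A ∩ B` a prime ideal, and let `G = Gal(Qb/L)`, a
profinite group which acts on `B` with continuous action and `B ^ G = 𝓞_L`. The stabiliser of `𝔔` in `G`
surjects onto the automorphisms of `B / 𝔔` over `𝓞_L / 𝔭` (`Ideal.Quotient.stabilizerHom_surjective_of_profinite`,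
file `Mathlib/RingTheory/Invariant/Profinite.lean`). So there is
`u ∈ G` which stabilises `𝔔` and acts on `B / 𝔔` like `w₀`. It stabilises `A`, since `A` is the localisation
of `B` at `𝔔` (`Qb` is algebraic; this might be in the library: see
`Pool/Agent/Q60/MU/Ram.lean`, `Pool/Agent/H639R3/Z/Gal.lean` and grep for `IsArithFrobAt` or `inertia`). Take `w = w₀ u⁻¹`. -/
def InertiaT : Prop := ∀ (p : ℕ), p.Prime → ∀ (N : ℕ) (A : ValuationSubring Qb),
  (p : Qb) ∈ A.nonunits → ∀ x : Gal(Qb/ℚ), ∃ w ∈ inertia A, x * w⁻¹ ∈ (cyc p N).fixingSubgroup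

/-- MU3. The number of primes of `ℚ(ζ)` above a prime number `ℓ ≠ p` is bounded independently of `N`.

Proof. Let `L = cyc p N`, `ζ` a primitive `p ^ N`-th root of unity. For a valuation ring `A` above `ℓ` let `D` be the
stabiliser of `A` in `Gal(Qb/ℚ)`. There is `φ ∈ D` with `φ x - x ^ ℓ ∈ 𝔪_A` for all algebraic integers `x` (Frobenius; for the
finite group `Gal(L/ℚ)` and the prime below `A` this is `IsArithFrobAt` / `exists_arithFrobAt` in Mathlib, and one needs it only
for `L`), so `φ ζ = ζ ^ ℓ` (`Pool.Agent.W5h77.MB.root_eq_one`). The group `Gal(Qb/ℚ)` acts transitively on the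
primes above `ℓ` (`conj_of_one` for the field `⊥` with `Pool.Agent.W5h33.DF.onePrime_bot`). So the number of orbits of
`Gal(Qb/L)` (a normal subgroup) is at most the index of the subgroup generated by `ℓ` in `(ZMod (p ^ N))ˣ`, and this index is
bounded: if `p ^ a` does not divide `ℓ ^ (p (p - 1)) - 1` (nonzero), then the subgroup generated by
`ℓ ^ (p (p-1))`, an element which is `1` mod `p` and (`p = 2`) mod `4`, contains all elements that are `1` mod
`p ^ a`: its order is at least `p ^ (N - a)` (for example by `padicValNat.pow_sub_pow`, lifting the exponent), so the index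
is at most `φ(p ^ N) / p ^ (N - a) ≤ p ^ a` for all `N ≥ a`. -/
def FinDecT : Prop := ∀ (p ℓ : ℕ), p.Prime → ℓ.Prime → ℓ ≠ p → ∃ t : ℕ, ∀ N : ℕ,
  ∃ T : Finset (ValuationSubring Qb), T.card ≤ t ∧
    ∀ A : ValuationSubring Qb, (ℓ : Qb) ∈ A.nonunits →
      ∃ B ∈ T, ∃ σ ∈ (cyc p N).fixingSubgroup, A = σ • B

end Pool.Agent.J6H71.MuS
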