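import Pool.Agent.J6H14.DMu.Fin
import Pool.Agent.J6H71.MuS.StmA

/-!
# Statements: extensions of degree a power of `p` (Iwasawa)
-/

set_option autoImplicit false

namespace Pool.Agent.J6H71.MuS

open IntermediateField Module Pool.Agent.Q60.MU Pool.Agent.W5h77.MB Pool.Agent.W5h33.DF
  Pool.Agent.J6H14.DMu NumberField
open scoped Pointwise ComplexConjugate

/-- MU4. Iwasawa's theorem (1973): in a Galois extension of degree a power of `p`, `μ = 0` goes up.

Proof. Apply `Pool.Agent.Q60.MU.reduction` to the group `𝔾 = gal F` (`F.fixingSubgroup`), `I = lc p s F`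
(`lc_conj`), `K = sb F K` (normal: `sb_normal`; open: `sb_open`; index `rdeg F K = p ^ n`: `index_sb`) and
`Dm m = sb F (R m)`, where `R m` is the `m`-th layer (`exists_layer`; `layer_sb_normal`). Its hypothesis on simple modules holds with
`L = ⊤`: a simple module of the `p`-group `𝔾 / sb F K` over `𝔽_p` is trivial (for example
`IsPGroup.card_modEq_card_fixedPoints`, or see `exists_vec_P` in `Pool/Agent/Q60/MU`), and
`Mu0 p I Dm ⊤` is `μ(F) = 0` (`rk_iff`, `sb_inf`; as in `Pool/Agent/J6H14/DMu/Fin.lean`). Its hypothesis `hram` on ramified places: let `c` be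
the number of `exists_bad` for the field `K`. A finite place `A` with `I A ⊓ Dm m` not contained in
`K` divides `c` or `p` (for `s = true` and `A` above `p` the local group is the decomposition group). The orbits of
the places above a prime number `ℓ ≠ p` under `gal (R m)` are bounded by `FinDecT` (`R m ≤ cyc p N`, so
`gal (cyc p N) ≤ gal (R m)`), those above `p` by `OnePrimeT` and `conj_of_one`: one orbit. For
the orbits under `gal F ⊓ gal (R m)` one gets at most `[F : ℚ]` times as many
(`Pool.Agent.Q60.MU.exists_TL` in `Pool/Agent/Q60/MU/Main.lean` may help). The infinite places: a place `w` whose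
local group in `gal F` is nontrivial belongs to a real place of `F`: for `w = |ι(·)|` and `σ` in
its stabiliser, `ι ∘ σ` is `ι` or its complex conjugate, so `σ = 1` or `ι` is real on `F`. So if `F` is totally
complex there is nothing to do. If `p` is odd then the local group has order at most `2` and
its intersection with `gal F` is contained in `sb F K`, since `sb F K` is normal of index `p ^ n`: `σ ^ 2 = 1`
implies `σ ∈ sb F K`. Finally `Mu0` for the chosen layers gives `MuVanishes p s K`: every layer is
contained in a layer `R m` of this sequence, or is equal to one. For this last step: if `R` is any layer, `Layer p m R`, then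
`R = R m` (both have degree `p ^ m` and are contained in `Layer.sup`, whose Galois group is cyclic: `layer_cyc`), or
alternatively use `RankLe.of_le` (as in `mu_above` in `Fin.lean`), choosing the sequence as
`R 0 ≤ R 1 ≤ ...` with suprema. You may choose another way, for example apply the theorem
`reduction` for a constant sequence if you can make its bound uniform (use `main_ineq` in `Pool/Agent/Q60/MU/Main.lean` directly, with
`D = sb F R`, `K = sb F (K ⊔ R)`, `𝓗 = {sb F R}`, which bounds the rank of `K R` by an explicit function of the rank of `F R`, of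
`[K R : F R] ≤ [K : F]` and of the number of ramified orbits: this avoids sequences and is probably best). -/
def IwasawaT : Prop := OnePrimeT → FinDecT → ∀ (p : ℕ) [Fact p.Prime] (s : Bool) (F K : Fl),
  FiniteDimensional ℚ K → F ≤ K → (∀ σ ∈ gal F, ∀ x ∈ K, im σ x ∈ K) → (∃ n, rdeg F K = p ^ n) →
  (p ≠ 2 ∨ ∀ ι : Qb →+* ℂ, ∃ x ∈ F, conj (ι x) ≠ ι x) → MuVanishes p s F → MuVanishes p s K

end Pool.Agent.J6H71.MuS
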