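import Pool.Agent.J6H71.Mu.Iso

/-!
# Statement: simple modules over abelian groups
-/

set_option autoImplicit false

namespace Pool.Agent.J6H71.MuS

open Pool.Agent.Q60.MU Pool.Agent.W5h77.MB Pool.Agent.W5h33.DF Pool.Agent.J6H14.DMu
  Pool.Agent.J6H71.Mu
open scoped commutatorElement

/-- MU6. Simple `𝔽_p`-modules `S` (written multiplicatively) of a group which acts through an abelian
quotient.

Proof. Let `E = En b` be the endomorphisms of `S` which commute with the action (file `Mu/Iso.lean`). By commutativity each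
`b g` is in `E`.
(1) for `1 ≠ v ∈ S`, the set `{e v | e ∈ E}` is a subgroup of `S` which is stable under `b` and contains `v`, so it
is everything: `E → S, e ↦ e v` is surjective, `|S| ≤ |E|`.
(2) `fx b H` is stable under `b` (commutativity), hence `⊥` or `⊤`.
(3) Let `n` be the index of `b.ker`. For `v ≠ 1` and `b g v = v`, `fx b (zpowers g ⊔ K)` (or directly the subgroup of the
vectors fixed by `g`) is not `⊥`, so `b g = 1`. So `𝔾 / b.ker` acts freely on `S ∖ {1}`: `n` divides `|S| - 1`, and
`|S| = p ^ d` with `d ≥ 1`; so `p` does not divide `n`, `p ^ d = 1` in `ZMod n`, and `orderOf p ≤ d`.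
(4) `𝔾 / b.ker` is cyclic: it is isomorphic to a finite subgroup of the units of a commutative domain: the subring
generated by the image of `b` in `AddMonoid.End (Additive S)` or `Module.End (ZMod p) (Additive S)` is commutative, and each
nonzero element is injective, as its kernel is stable under `b`. Use `isCyclic_of_subgroup_isDomain`. -/
def AbelianSimpleT : Prop := ∀ (𝔾 : Type) [Group 𝔾] (p : ℕ) [Fact p.Prime] (K : Subgroup 𝔾),
  K.Normal → K.index ≠ 0 → (∀ g h : 𝔾, ⁅g, h⁆ ∈ K) → ∀ (S : Type) [CommGroup S] [Finite S]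
    (b : 𝔾 →* MulAut S), Simp p K b →
  Nat.card S ≤ Nat.card (En b) ∧ (∀ H : Subgroup 𝔾, fx b H = ⊤ ∨ fx b H = ⊥) ∧
    (∃ σ : 𝔾, ∀ τ : 𝔾, ∃ i : ℤ, τ * (σ ^ i)⁻¹ ∈ b.ker) ∧ ¬ p ∣ b.ker.index ∧
    p ^ orderOf ((p : ℕ) : ZMod b.ker.index) ≤ Nat.card S

end Pool.Agent.J6H71.MuS
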